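import Mathlib
import Pool.Agent.H11.Northcott

/-!
A set of classes of the Tate-Shafarevich group is finite if and only if its classes are split by
Galois extensions with bounded Mordell-Weil rank and bounded torsion.
-/

set_option autoImplicit false
open scoped Classical

namespace Pool.Agent.Results.MP_78d38b_nt.BoundedGrowth

/-- `f` is a continuous one-cocycle of the absolute Galois group of `K` with values in the points
of `W` over the algebraic closure. -/
def IsContCocycle (K : Type) [Field K] (W : WeierstrassCurve K)
    (f : (AlgebraicClosure K ≃ₐ[K] AlgebraicClosure K) →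
      (W.baseChange (AlgebraicClosure K)).toAffine.Point) : Prop :=
  IsLocallyConstant f ∧
  ∀ σ τ : AlgebraicClosure K ≃ₐ[K] AlgebraicClosure K,
    f (σ * τ) = f σ +
      (WeierstrassCurve.Affine.Point.map σ.toAlgHom :
        (W.baseChange (AlgebraicClosure K)).toAffine.Point →+
          (W.baseChange (AlgebraicClosure K)).toAffine.Point) (f τ)

/-- `f` is a continuous one-cocycle which is a coboundary at every place of `K`: these are word
for word the conditions of the frozen statement S17497, so the classes of such cocycles form the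
Tate-Shafarevich group. -/
def IsShaCocycle (K : Type) [Field K] [NumberField K] (W : WeierstrassCurve K)
    (f : (AlgebraicClosure K ≃ₐ[K] AlgebraicClosure K) →
      (W.baseChange (AlgebraicClosure K)).toAffine.Point) : Prop :=
  IsContCocycle K W f ∧
  (∀ v : IsDedekindDomain.HeightOneSpectrum (NumberField.RingOfIntegers K),
    ∀ ι : AlgebraicClosure K →ₐ[K] AlgebraicClosure (v.adicCompletion K),
    ∃ P : (W.baseChange (AlgebraicClosure (v.adicCompletion K))).toAffine.Point,
    ∀ τ : AlgebraicClosure (v.adicCompletion K) ≃ₐ[v.adicCompletion K]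
          AlgebraicClosure (v.adicCompletion K),
    ∀ σ : AlgebraicClosure K ≃ₐ[K] AlgebraicClosure K,
      (τ.toAlgHom.restrictScalars K).comp ι = ι.comp σ.toAlgHom →
      (WeierstrassCurve.Affine.Point.map ι :
        (W.baseChange (AlgebraicClosure K)).toAffine.Point →+
          (W.baseChange (AlgebraicClosure (v.adicCompletion K))).toAffine.Point) (f σ) =
        (WeierstrassCurve.Affine.Point.map (τ.toAlgHom.restrictScalars K) :
          (W.baseChange (AlgebraicClosure (v.adicCompletion K))).toAffine.Point →+
            (W.baseChange (AlgebraicClosure (v.adicCompletion K))).toAffine.Point) P - P) ∧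
  (∀ v : NumberField.InfinitePlace K,
    ∀ ι : AlgebraicClosure K →ₐ[K] AlgebraicClosure v.Completion,
    ∃ P : (W.baseChange (AlgebraicClosure v.Completion)).toAffine.Point,
    ∀ τ : AlgebraicClosure v.Completion ≃ₐ[v.Completion] AlgebraicClosure v.Completion,
    ∀ σ : AlgebraicClosure K ≃ₐ[K] AlgebraicClosure K,
      (τ.toAlgHom.restrictScalars K).comp ι = ι.comp σ.toAlgHom →
      (WeierstrassCurve.Affine.Point.map ι :
        (W.baseChange (AlgebraicClosure K)).toAffine.Point →+
          (W.baseChange (AlgebraicClosure v.Completion)).toAffine.Point) (f σ) =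
        (WeierstrassCurve.Affine.Point.map (τ.toAlgHom.restrictScalars K) :
          (W.baseChange (AlgebraicClosure v.Completion)).toAffine.Point →+
            (W.baseChange (AlgebraicClosure v.Completion)).toAffine.Point) P - P)

/-- `f` and `g` differ by a coboundary. -/
def Cohomologous (K : Type) [Field K] (W : WeierstrassCurve K)
    (f g : (AlgebraicClosure K ≃ₐ[K] AlgebraicClosure K) →
      (W.baseChange (AlgebraicClosure K)).toAffine.Point) : Prop :=
  ∃ Q : (W.baseChange (AlgebraicClosure K)).toAffine.Point,
    ∀ σ : AlgebraicClosure K ≃ₐ[K] AlgebraicClosure K,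
      f σ = g σ +
        ((WeierstrassCurve.Affine.Point.map σ.toAlgHom :
          (W.baseChange (AlgebraicClosure K)).toAffine.Point →+
            (W.baseChange (AlgebraicClosure K)).toAffine.Point) Q - Q)

/-- `L` splits `f`: the restriction of `f` to the absolute Galois group of `L` is a coboundary. -/
def Splits (K : Type) [Field K] (W : WeierstrassCurve K)
    (L : IntermediateField K (AlgebraicClosure K))
    (f : (AlgebraicClosure K ≃ₐ[K] AlgebraicClosure K) →
      (W.baseChange (AlgebraicClosure K)).toAffine.Point) : Prop :=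
  ∃ P : (W.baseChange (AlgebraicClosure K)).toAffine.Point,
    ∀ σ : AlgebraicClosure K ≃ₐ[K] AlgebraicClosure K, (∀ x ∈ L, σ x = x) →
      f σ = (WeierstrassCurve.Affine.Point.map σ.toAlgHom :
        (W.baseChange (AlgebraicClosure K)).toAffine.Point →+
          (W.baseChange (AlgebraicClosure K)).toAffine.Point) P - P

/-- The class of `f` has complexity at most `N`: it is killed by some integer `c` and split by
some Galois extension `L` of `K`, finite or infinite, such that the group of `L`-points of the
curve has rank at most `N` and such that some positive integer `e` which is at most `N` kills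
every `L`-point killed by a power of `c`. -/
def ComplexityLE (K : Type) [Field K] (W : WeierstrassCurve K) (N : ℕ)
    (f : (AlgebraicClosure K ≃ₐ[K] AlgebraicClosure K) →
      (W.baseChange (AlgebraicClosure K)).toAffine.Point) : Prop :=
  ∃ (c : ℕ) (L : IntermediateField K (AlgebraicClosure K)),
    Cohomologous K W (fun σ => c • f σ) 0 ∧ IsGalois K L ∧ Splits K W L f ∧
    Module.rank ℤ (W.baseChange L).toAffine.Point ≤ N ∧
    ∃ e : ℕ, 1 ≤ e ∧ e ≤ N ∧
      ∀ (P : (W.baseChange L).toAffine.Point) (k : ℕ), c ^ k • P = 0 → e • P = 0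

theorem result (K : Type) [Field K] [NumberField K] (W : WeierstrassCurve K) [W.IsElliptic] :
    -- the order of a class divides `e * lcm (1, ..., r + 1)`
    (∀ (f : (AlgebraicClosure K ≃ₐ[K] AlgebraicClosure K) →
          (W.baseChange (AlgebraicClosure K)).toAffine.Point)
        (L : IntermediateField K (AlgebraicClosure K)) (c e : ℕ),
      IsContCocycle K W f → IsGalois K L → Splits K W L f →
      Module.rank ℤ (W.baseChange L).toAffine.Point < Cardinal.aleph0 →
      Cohomologous K W (fun σ => c • f σ) 0 → 1 ≤ e →
      (∀ (P : (W.baseChange L).toAffine.Point) (k : ℕ), c ^ k • P = 0 → e • P = 0) →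
      Cohomologous K W (fun σ => (e * (Finset.Icc 1
        (Module.finrank ℤ (W.baseChange L).toAffine.Point -
          Module.finrank ℤ (W.baseChange K).toAffine.Point + 1)).lcm id) • f σ) 0) ∧
    -- for a set `X` of classes of the Tate-Shafarevich group, the following are equivalent:
    -- `X` is finite; `X` is split by one finite Galois extension; the complexity is bounded on `X`
    (∀ X : Set ((AlgebraicClosure K ≃ₐ[K] AlgebraicClosure K) →
        (W.baseChange (AlgebraicClosure K)).toAffine.Point),
      (∀ f ∈ X, IsShaCocycle K W f) →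
      List.TFAE [
        ∃ S : Set ((AlgebraicClosure K ≃ₐ[K] AlgebraicClosure K) →
            (W.baseChange (AlgebraicClosure K)).toAffine.Point),
          S.Finite ∧ ∀ f ∈ X, ∃ g ∈ S, Cohomologous K W f g,
        ∃ L : IntermediateField K (AlgebraicClosure K),
          FiniteDimensional K L ∧ IsGalois K L ∧ ∀ f ∈ X, Splits K W L f,
        ∃ N : ℕ, ∀ f ∈ X, ComplexityLE K W N f]) := by
  constructor
  · intro f L c e hf hL hs hr hc he1 he
    have hn : Normal K L := hL.to_normal
    obtain ⟨Q, hQ⟩ := hc
    obtain ⟨R, hR⟩ := Pool.Agent.H11.order_dvd W L hr e (by omega) c he hf.1 hf.2 hs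
      ⟨Q, fun σ => (hQ σ).trans (zero_add _)⟩
    exact ⟨R, fun σ => (hR σ).trans (zero_add _).symm⟩
  · intro X hX
    have h2 : ∀ (N : ℕ) (f : (AlgebraicClosure K ≃ₐ[K] AlgebraicClosure K) →
        (W.baseChange (AlgebraicClosure K)).toAffine.Point),
        Pool.Agent.H11.CplxLE W N f → ComplexityLE K W N f := by
      rintro N f ⟨L, hL, hs, hr, c, ⟨Q, hQ⟩, e, he1, heN, he⟩
      exact ⟨c, L, ⟨Q, fun σ => (hQ σ).trans (zero_add _).symm⟩, hL, hs, hr, e, by omega, heN, he⟩
    have h3 : ∀ (N : ℕ) (f : (AlgebraicClosure K ≃ₐ[K] AlgebraicClosure K) →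
        (W.baseChange (AlgebraicClosure K)).toAffine.Point),
        ComplexityLE K W N f → Pool.Agent.H11.CplxLE W N f := by
      rintro N f ⟨c, L, ⟨Q, hQ⟩, hL, hs, hr, e, he1, heN, he⟩
      exact ⟨L, hL, hs, hr, c, ⟨Q, fun σ => (hQ σ).trans (zero_add _)⟩, e, by omega, heN, he⟩
    have hX' : ∀ f ∈ X, Pool.Agent.H11.IsSha W f := fun f hf => ⟨(hX f hf).1, (hX f hf).2⟩
    tfae_have 1 → 2 := Pool.Agent.H11.split_of_finite W X hX'
    tfae_have 2 → 3 := by
      rintro ⟨L, hfin, hgal, hs⟩
      obtain ⟨N, hN⟩ := Pool.Agent.H11.cplx_of_split W X hX' L hfin hgal hs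
      exact ⟨N, fun f hf => h2 N f (hN f hf)⟩
    tfae_have 3 → 1 := by
      rintro ⟨N, hN⟩
      exact Pool.Agent.H11.finite_of_cplx W X hX' N fun f hf => h3 N f (hN f hf)
    tfae_finish

end Pool.Agent.Results.MP_78d38b_nt.BoundedGrowth
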