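import Mathlib
import Pool.Agent.H5.WB

open MeasureTheory Set Filter Topology
open scoped Real Interval
open Pool.Agent Pool.Agent.H5 Pool.Agent.H27.Cor

/-- Assume the Riemann Hypothesis. For all fixed `α < β` with `|α|, |β| ≥ 4` the quantity
`N(T; α, β)` differs from its conjectured asymptotic value `G(α, β) (T/2π) log T` by at most
`(0.944 + 0.065 (1/|α| + 1/|β|) + o(1)) (T/2π) log T`. The Beurling-Selberg (band-limited) majorant
method gives the constant `1` here. -/
theorem Pool.Agent.H5.Parked.FarWindows.result (hRH : RiemannHypothesis) (α β : ℝ) (hαβ : α < β)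
    (hα : 4 ≤ |α|) (hβ : 4 ≤ |β|) (ε : ℝ) (hε : 0 < ε) :
    ∀ᶠ T in atTop, |PC.pairCount T α β - PC.gue α β * PC.norm T|
      ≤ (118 / 125 + 13 / 200 * (1 / |α| + 1 / |β|) + ε) * PC.norm T :=
  farWindows hRH (lbh hRH) hαβ hα hβ hε
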