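import Pool.Agent.H11.Desc
import Pool.Agent.H11.Absr3

/-!
# Infinite Tate-Shafarevich groups in Galois extensions
-/

set_option autoImplicit false
open scoped Classical

namespace Pool.Agent.H5.Parked.GaloisDescent

/-- `f` is a continuous one-cocycle of the absolute Galois group of `K` with values in the points
of `W` over the algebraic closure. -/
def IsContCocycle (K : Type) [Field K] (W : WeierstrassCurve K)
    (f : (AlgebraicClosure K ≃ₐ[K] AlgebraicClosure K) →
      (W.baseChange (AlgebraicClosure K)).toAffine.Point) : Prop :=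
  IsLocallyConstant f ∧
  ∀ σ τ : AlgebraicClosure K ≃ₐ[K] AlgebraicClosure K,
    f (σ * τ) = f σ +
      (WeierstrassCurve.Affine.Point.map σ.toAlgHom :
        (W.baseChange (AlgebraicClosure K)).toAffine.Point →+
          (W.baseChange (AlgebraicClosure K)).toAffine.Point) (f τ)

/-- `f` is a continuous one-cocycle which is a coboundary at every place of `K`: these are word
for word the conditions of the frozen statement S17497, so the classes of such cocycles form the
Tate-Shafarevich group. -/
def IsShaCocycle (K : Type) [Field K] [NumberField K] (W : WeierstrassCurve K)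
    (f : (AlgebraicClosure K ≃ₐ[K] AlgebraicClosure K) →
      (W.baseChange (AlgebraicClosure K)).toAffine.Point) : Prop :=
  IsContCocycle K W f ∧
  (∀ v : IsDedekindDomain.HeightOneSpectrum (NumberField.RingOfIntegers K),
    ∀ ι : AlgebraicClosure K →ₐ[K] AlgebraicClosure (v.adicCompletion K),
    ∃ P : (W.baseChange (AlgebraicClosure (v.adicCompletion K))).toAffine.Point,
    ∀ τ : AlgebraicClosure (v.adicCompletion K) ≃ₐ[v.adicCompletion K]
          AlgebraicClosure (v.adicCompletion K),
    ∀ σ : AlgebraicClosure K ≃ₐ[K] AlgebraicClosure K,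
      (τ.toAlgHom.restrictScalars K).comp ι = ι.comp σ.toAlgHom →
      (WeierstrassCurve.Affine.Point.map ι :
        (W.baseChange (AlgebraicClosure K)).toAffine.Point →+
          (W.baseChange (AlgebraicClosure (v.adicCompletion K))).toAffine.Point) (f σ) =
        (WeierstrassCurve.Affine.Point.map (τ.toAlgHom.restrictScalars K) :
          (W.baseChange (AlgebraicClosure (v.adicCompletion K))).toAffine.Point →+
            (W.baseChange (AlgebraicClosure (v.adicCompletion K))).toAffine.Point) P - P) ∧
  (∀ v : NumberField.InfinitePlace K,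
    ∀ ι : AlgebraicClosure K →ₐ[K] AlgebraicClosure v.Completion,
    ∃ P : (W.baseChange (AlgebraicClosure v.Completion)).toAffine.Point,
    ∀ τ : AlgebraicClosure v.Completion ≃ₐ[v.Completion] AlgebraicClosure v.Completion,
    ∀ σ : AlgebraicClosure K ≃ₐ[K] AlgebraicClosure K,
      (τ.toAlgHom.restrictScalars K).comp ι = ι.comp σ.toAlgHom →
      (WeierstrassCurve.Affine.Point.map ι :
        (W.baseChange (AlgebraicClosure K)).toAffine.Point →+
          (W.baseChange (AlgebraicClosure v.Completion)).toAffine.Point) (f σ) =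
        (WeierstrassCurve.Affine.Point.map (τ.toAlgHom.restrictScalars K) :
          (W.baseChange (AlgebraicClosure v.Completion)).toAffine.Point →+
            (W.baseChange (AlgebraicClosure v.Completion)).toAffine.Point) P - P)

/-- `f` and `g` differ by a coboundary. -/
def Cohomologous (K : Type) [Field K] (W : WeierstrassCurve K)
    (f g : (AlgebraicClosure K ≃ₐ[K] AlgebraicClosure K) →
      (W.baseChange (AlgebraicClosure K)).toAffine.Point) : Prop :=
  ∃ Q : (W.baseChange (AlgebraicClosure K)).toAffine.Point,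
    ∀ σ : AlgebraicClosure K ≃ₐ[K] AlgebraicClosure K,
      f σ = g σ +
        ((WeierstrassCurve.Affine.Point.map σ.toAlgHom :
          (W.baseChange (AlgebraicClosure K)).toAffine.Point →+
            (W.baseChange (AlgebraicClosure K)).toAffine.Point) Q - Q)

/-- The class of `f` in the Tate-Shafarevich group, as a set of cocycles. -/
def shaClass (K : Type) [Field K] [NumberField K] (W : WeierstrassCurve K)
    (f : (AlgebraicClosure K ≃ₐ[K] AlgebraicClosure K) →
      (W.baseChange (AlgebraicClosure K)).toAffine.Point) :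
    Set ((AlgebraicClosure K ≃ₐ[K] AlgebraicClosure K) →
      (W.baseChange (AlgebraicClosure K)).toAffine.Point) :=
  {g | IsShaCocycle K W g ∧ Cohomologous K W g f}

/-- The `P`-primary part of the Tate-Shafarevich group: the set of the classes killed by a positive
integer all of whose prime factors lie in `P`. -/
def shaPart (K : Type) [Field K] [NumberField K] (W : WeierstrassCurve K) (P : Set ℕ) :
    Set (Set ((AlgebraicClosure K ≃ₐ[K] AlgebraicClosure K) →
      (W.baseChange (AlgebraicClosure K)).toAffine.Point)) :=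
  {C | ∃ f, IsShaCocycle K W f ∧ C = shaClass K W f ∧
    ∃ m : ℕ, m ≠ 0 ∧ (∀ q : ℕ, q.Prime → q ∣ m → q ∈ P) ∧
      Cohomologous K W (fun σ => m • f σ) 0}

/-- The number of classes of the Tate-Shafarevich group which are killed by `p` and are `n` times
a class of the Tate-Shafarevich group: the order of `(n Sha)[p]`. -/
noncomputable def torCard (K : Type) [Field K] [NumberField K] (W : WeierstrassCurve K)
    (n p : ℕ) : ℕ :=
  {C | ∃ f, IsShaCocycle K W f ∧ C = shaClass K W f ∧ Cohomologous K W (fun σ => p • f σ) 0 ∧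
    ∃ g, IsShaCocycle K W g ∧ Cohomologous K W (fun σ => n • g σ) f}.ncard

/-- The curve over the fixed field of `H`. -/
noncomputable abbrev overFixed {K L : Type} [Field K] [Field L] [Algebra K L]
    (W : WeierstrassCurve K) (H : Subgroup (L ≃ₐ[K] L)) :
    WeierstrassCurve (IntermediateField.fixedField H) :=
  W.map (algebraMap K (IntermediateField.fixedField H))

/-- The dimension of the space of vectors fixed by `H` in the representation `σ`. -/
noncomputable def fixDim {k G M : Type} [Field k] [Group G] [AddCommGroup M] [Module k M]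
    (σ : Representation k G M) (H : Subgroup G) : ℕ :=
  Module.finrank k (Representation.invariants (k := k) (G := H) (V := M) (σ.comp H.subtype))

/-- There is an irreducible representation `M` of `Gal(L/K)` over `ℚ_p` such that the `p`-primary
part of the Tate-Shafarevich group over the fixed field of `H` is infinite whenever `M` has a
nonzero vector fixed by `H`; more precisely, the dimension of the fixed space is a lower bound for
the rank of the `p`-torsion of every multiple `n Sha`. The degree over `K` of the field cut out by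
`M` is bounded in terms of the rank of the `p`-torsion of any multiple `n Sha` over `L`. -/
def PadicType (K L : Type) [Field K] [NumberField K] [Field L] [NumberField L] [Algebra K L]
    (W : WeierstrassCurve K) (p : ℕ) [Fact p.Prime] : Prop :=
  ∃ (M : Type) (_ : AddCommGroup M) (_ : Module ℚ_[p] M)
    (σ : Representation ℚ_[p] (L ≃ₐ[K] L) M), σ.IsIrreducible ∧ FiniteDimensional ℚ_[p] M ∧
    (∀ n : ℕ, n ≠ 0 → p ^ Module.finrank ℚ_[p] M ≤ torCard L (W.map (algebraMap K L)) n p) ∧
    (∀ H : Subgroup (L ≃ₐ[K] L),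
      (∀ n : ℕ, n ≠ 0 →
        p ^ fixDim σ H ≤ torCard (IntermediateField.fixedField H) (overFixed W H) n p) ∧
      (fixDim σ H ≠ 0 → (shaPart (IntermediateField.fixedField H) (overFixed W H) {p}).Infinite)) ∧
    ∀ n d : ℕ, n ≠ 0 → torCard L (W.map (algebraMap K L)) n p ≤ p ^ d →
      Module.finrank K (IntermediateField.fixedField σ.ker) ≤ (if p = 2 then 4 else p) ^ (d ^ 2)

/-- There is an irreducible complex representation `M` of `Gal(L/K)` such that the `P`-primary
part of the Tate-Shafarevich group over the fixed field of `H` is infinite whenever `M` has a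
nonzero vector fixed by `H`; more precisely, for infinitely many `p ∈ P` the dimension of the fixed
space is a lower bound for the rank of `Sha[p]`, for all `H`. -/
def ComplexType (K L : Type) [Field K] [NumberField K] [Field L] [NumberField L] [Algebra K L]
    (W : WeierstrassCurve K) (P : Set ℕ) : Prop :=
  ∃ (M : Type) (_ : AddCommGroup M) (_ : Module ℂ M)
    (σ : Representation ℂ (L ≃ₐ[K] L) M), σ.IsIrreducible ∧ FiniteDimensional ℂ M ∧
    (∃ Q ⊆ P, Q.Infinite ∧ ∀ p ∈ Q,
      p ^ Module.finrank ℂ M ≤ torCard L (W.map (algebraMap K L)) 1 p ∧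
      ∀ H : Subgroup (L ≃ₐ[K] L),
        p ^ fixDim σ H ≤ torCard (IntermediateField.fixedField H) (overFixed W H) 1 p) ∧
    ∀ H : Subgroup (L ≃ₐ[K] L), fixDim σ H ≠ 0 →
      (shaPart (IntermediateField.fixedField H) (overFixed W H) P).Infinite

open Pool.Agent.H10 in
/-- The set of cocycles of a class. -/
def Phi (K : Type) [Field K] [NumberField K] (W : WeierstrassCurve K) (x : Sha K W) :
    Set (Coch K W) := {g | ∃ h : g ∈ ShaZ K W, Sha.mk ⟨g, h⟩ = x}

open Pool.Agent.H10 in
lemma mk_eq_iff {K : Type} [Field K] [NumberField K] {W : WeierstrassCurve K} (f g : ShaZ K W) :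
    Sha.mk f = Sha.mk g ↔ Cohomologous K W f g := by
  rw [← sub_eq_zero]
  have h1 : Sha.mk f - Sha.mk g = Sha.mk (f - g) := rfl
  rw [h1, Sha.mk_eq_zero]
  refine exists_congr fun Q => forall_congr' fun σ => ?_
  change f.1 σ - g.1 σ = _ ↔ _
  rw [sub_eq_iff_eq_add']

open Pool.Agent.H10 in
lemma phi_mk {K : Type} [Field K] [NumberField K] {W : WeierstrassCurve K} (f : ShaZ K W) :
    Phi K W (Sha.mk f) = shaClass K W f := by
  ext g
  constructor
  · rintro ⟨h, hg⟩
    exact ⟨h, (mk_eq_iff ⟨g, h⟩ f).mp hg⟩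
  · rintro ⟨h, hg⟩
    exact ⟨h, (mk_eq_iff ⟨g, h⟩ f).mpr hg⟩

open Pool.Agent.H10 in
lemma phi_injective (K : Type) [Field K] [NumberField K] (W : WeierstrassCurve K) :
    Function.Injective (Phi K W) := by
  intro x y hxy
  obtain ⟨f, rfl⟩ := Sha.mk_surjective x
  have h1 : (f : Coch K W) ∈ Phi K W (Sha.mk f) := ⟨f.2, rfl⟩
  rw [hxy] at h1
  exact h1.2

open Pool.Agent.H10 in
lemma kill_iff {K : Type} [Field K] [NumberField K] {W : WeierstrassCurve K} (f : ShaZ K W)
    (m : ℕ) : m • Sha.mk f = 0 ↔ Cohomologous K W (fun σ => m • f.1 σ) 0 := by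
  have h1 : (0 : Sha K W) = Sha.mk 0 := rfl
  rw [← Sha.mk_nsmul, h1, mk_eq_iff]
  exact Iff.rfl

open Pool.Agent.H10 in
lemma torCard_eq (K : Type) [Field K] [NumberField K] (W : WeierstrassCurve K) (n p : ℕ) :
    {x : Sha K W | p • x = 0 ∧ ∃ y, n • y = x}.ncard = torCard K W n p := by
  unfold torCard
  rw [← Set.ncard_image_of_injective _ (phi_injective K W)]
  congr 1
  ext C
  constructor
  · rintro ⟨x, ⟨hx, y, hy⟩, rfl⟩
    obtain ⟨f, rfl⟩ := Sha.mk_surjective x
    obtain ⟨g, rfl⟩ := Sha.mk_surjective y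
    refine ⟨f, f.2, phi_mk f, (kill_iff f p).mp hx, g, g.2, ?_⟩
    rw [← Sha.mk_nsmul] at hy
    exact (mk_eq_iff (n • g) f).mp hy
  · rintro ⟨f, hf, rfl, hp, g, hg, hn⟩
    refine ⟨Sha.mk ⟨f, hf⟩, ⟨(kill_iff ⟨f, hf⟩ p).mpr hp, Sha.mk ⟨g, hg⟩, ?_⟩, phi_mk ⟨f, hf⟩⟩
    rw [← Sha.mk_nsmul]
    exact (mk_eq_iff (n • ⟨g, hg⟩) ⟨f, hf⟩).mpr hn

open Pool.Agent.H10 in
lemma shaPart_eq (K : Type) [Field K] [NumberField K] (W : WeierstrassCurve K) (P : Set ℕ) :
    Phi K W '' (Pool.Agent.H11.DP.Part (Sha K W) P : Set (Sha K W)) = shaPart K W P := by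
  ext C
  constructor
  · rintro ⟨x, ⟨m, hm, hmP, hx⟩, rfl⟩
    obtain ⟨f, rfl⟩ := Sha.mk_surjective x
    exact ⟨f, f.2, phi_mk f, m, hm, hmP, (kill_iff f m).mp hx⟩
  · rintro ⟨f, hf, rfl, m, hm, hmP, hx⟩
    exact ⟨Sha.mk ⟨f, hf⟩, ⟨m, hm, hmP, (kill_iff ⟨f, hf⟩ m).mpr hx⟩, phi_mk ⟨f, hf⟩⟩

open Pool.Agent.H10 in
lemma shaPart_infinite_iff (K : Type) [Field K] [NumberField K] (W : WeierstrassCurve K)
    (P : Set ℕ) : (shaPart K W P).Infinite ↔
      (Pool.Agent.H11.DP.Part (Sha K W) P : Set (Sha K W)).Infinite := by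
  rw [← shaPart_eq]
  exact Set.infinite_image_iff (phi_injective K W).injOn

open Pool.Agent.H10 in
/-- If the `P`-primary part of the Tate-Shafarevich group of an elliptic curve over `K` is
infinite over a finite Galois extension `L`, then there is an irreducible representation of
`Gal(L/K)`, over `ℚ_p` for some `p ∈ P` or over `ℂ`, which bounds the Tate-Shafarevich groups over
all intermediate fields from below. -/
theorem result (K L : Type) [Field K] [NumberField K] [Field L] [NumberField L] [Algebra K L]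
    [IsGalois K L] (W : WeierstrassCurve K) [W.IsElliptic] (P : Set ℕ) (hP : ∀ p ∈ P, p.Prime)
    (hinf : (shaPart L (W.map (algebraMap K L)) P).Infinite) :
    (∃ p ∈ P, ∃ _ : Fact p.Prime, PadicType K L W p) ∨ ComplexType K L W P := by
  have h1 : ∀ (F : Type) [Field F] [NumberField F] (U : WeierstrassCurve F) (p : ℕ),
      {x : Sha F U | p • x = 0}.ncard = torCard F U 1 p := by
    intro F _ _ U p
    rw [← torCard_eq]
    congr 1
    ext x
    exact ⟨fun h => ⟨h, x, one_smul _ _⟩, fun h => h.1⟩
  rw [shaPart_infinite_iff] at hinf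
  rcases Pool.Agent.H11.DP.main
    (Pool.Agent.H11.actH (V := W) (V' := W.map (algebraMap K L)) rfl) P
    (fun H => Sha (IntermediateField.fixedField H) (overFixed W H))
    (fun H => Sha.cor (Pool.Agent.H11.bcF_map W (IntermediateField.fixedField H)))
    (fun H => Sha.res (Pool.Agent.H11.bcF_map W (IntermediateField.fixedField H)))
    (fun H x => (Pool.Agent.H11.nu_eq_res_cor W H x).symm) hP
    (fun p hp => Pool.Agent.H11.sha_finite_torsion (W.map (algebraMap K L)) p (hP p hp).ne_zero)
    (fun p hp H => Pool.Agent.H11.sha_finite_torsion (overFixed W H) p (hP p hp).ne_zero)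
    hinf with ⟨p, hp, hf, M, iM, mM, σ, h2, h3, h4, h5, h6⟩ |
      ⟨M, iM, mM, σ, h2, h3, Q, hQ, hQi, h4⟩
  · refine Or.inl ⟨p, hp, hf, M, iM, mM, σ, h2, h3, fun n hn => ?_, fun H => ⟨fun n hn => ?_,
      fun hH => ?_⟩, fun n d hn hnd => ?_⟩
    · rw [← torCard_eq]
      exact h4 n hn
    · rw [← torCard_eq]
      exact h5 H n hn
    · rw [shaPart_infinite_iff]
      refine (Pool.Agent.H11.DP.infinite_prim hf.out fun n hn => ?_).mono ?_
      · exact (Nat.one_lt_pow hH hf.out.one_lt).trans_le (h5 H n hn)
      · exact Pool.Agent.H11.DP.prim_le_part hf.out (Set.mem_singleton p)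
    rw [Pool.Agent.H11.finrank_fixedField]
    rw [← torCard_eq] at hnd
    have h7 := h6 n d hn hnd
    have h8 : p ^ Pool.Agent.H11.DP.ex p = if p = 2 then 4 else p := by
      unfold Pool.Agent.H11.DP.ex
      split_ifs with h
      · rw [h]; rfl
      · rw [pow_one]
    rwa [h8] at h7
  · refine Or.inr ⟨M, iM, mM, σ, h2, h3, ⟨Q, hQ, hQi, fun p hp => ⟨?_, fun H => ?_⟩⟩,
      fun H hH => ?_⟩
    · rw [← h1]
      exact (h4 p hp).1
    · rw [← h1]
      exact (h4 p hp).2 H
    · rw [shaPart_infinite_iff]
      refine Pool.Agent.H11.DP.infinite_part hP hQ hQi fun p hp => ?_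
      exact (Nat.one_lt_pow hH (hP p (hQ hp)).one_lt).trans_le ((h4 p hp).2 H)

end Pool.Agent.H5.Parked.GaloisDescent
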